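import Mathlib
import Pool.Agent.H98.HP5

/-! Short cycles appear in the largest critical component for some `α < d`. -/

namespace Pool.Agent.Results.MP_c53cb9_pr.Triangles

open Finset Filter Topology Pool.Agent.H98.HP

lemma exists_zeta {d n : ℕ} (hd : 1 ≤ d) (hn : 1 ≤ n) (ρ : ℝ → ℝ) (hρ : ∀ i : ℕ, 0 < ρ (3 ^ i)) :
    ∃ ζ, IsZeta d 3 ρ n ζ := by
  set f : ℝ → ℝ := fun t => ((3 : ℝ) ^ d - 1) * ∑ i ∈ Icc 1 n, (3 : ℝ) ^ ((i - 1) * d) *
    Real.exp (-(t * ρ ((3 : ℝ) ^ i))) with hf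
  have hc : Continuous f := by simp only [hf]; fun_prop
  have h0 : f 0 = 3 ^ (n * d) - 1 := by
    have := sum_lev (d := d) (L := 3) (n := n) fun _ => 1
    simp only [sum_const, card_univ, Fintype.card_fun, ZMod.card, Fintype.card_fin, nsmul_eq_mul,
      mul_one, ← mul_sum] at this
    push_cast at this
    simp only [hf, zero_mul, neg_zero, Real.exp_zero, mul_one, pow_mul']
    linarith
  have h1 : Tendsto f atTop (𝓝 0) := by
    have : ∀ i ∈ Icc 1 n, Tendsto (fun t => (3 : ℝ) ^ ((i - 1) * d) *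
        Real.exp (-(t * ρ ((3 : ℝ) ^ i)))) atTop (𝓝 0) := fun i _ => by
      simpa using (Real.tendsto_exp_neg_atTop_nhds_zero.comp
        (tendsto_id.atTop_mul_const (hρ i))).const_mul ((3 : ℝ) ^ ((i - 1) * d))
    simpa using (tendsto_finsetSum _ this).const_mul ((3 : ℝ) ^ d - 1)
  have h2 : (3 : ℝ) ≤ 3 ^ (n * d) := le_self_pow₀ (by norm_num) (Nat.mul_ne_zero (by omega) (by omega))
  obtain ⟨T, hT, hT0⟩ := ((h1.eventually (gt_mem_nhds (show (0 : ℝ) < 3 ^ (n * d) - 2 by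
    linarith))).and (eventually_ge_atTop 0)).exists
  obtain ⟨t, ht, h3⟩ := intermediate_value_Icc' hT0 hc.continuousOn
    (show (3 : ℝ) ^ (n * d) - 2 ∈ Set.Icc (f T) (f 0) from ⟨hT.le, by rw [h0]; linarith⟩)
  have h4 : t ≠ 0 := by
    rintro rfl
    rw [h0] at h3
    linarith
  refine ⟨t⁻¹, inv_pos.2 (lt_of_le_of_ne ht.1 h4.symm), ?_⟩
  rw [inv_inv, Nat.cast_ofNat]
  exact h3

theorem result (d : ℕ) (hd : 1 ≤ d) :
    ∃ (α : ℝ) (ρ : ℝ → ℝ), 2 * d / 3 ≤ α ∧ α < d ∧ ρ 0 = 0 ∧ (∀ r, 0 ≤ r → 0 ≤ ρ r) ∧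
      (∀ r, 1 ≤ r → ρ r = r ^ (-α)) ∧ (∀ n, 1 ≤ n → ∃ ζ, IsZeta d 3 ρ n ζ) ∧
      ∀ ζ : ℕ → ℝ, (∀ n, 1 ≤ n → IsZeta d 3 ρ n (ζ n)) →
        Tendsto (fun n => prob (edgeP ρ (ζ n) 0 : Sym2 (Box d 3 n) → ℝ) (ShortCyc 3))
          atTop (𝓝 1) := by
  have hd' : (1 : ℝ) ≤ d := by exact_mod_cast hd
  refine ⟨11 * d / 12, fun r => r ^ (-(11 * d / 12 : ℝ)), by linarith, by linarith,
    Real.zero_rpow (by linarith), fun r hr => Real.rpow_nonneg hr _, fun _ _ => rfl,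
    fun n hn => exists_zeta hd hn _ fun i => by positivity, fun ζ hζ => ?_⟩
  set h : ℝ := 3 ^ ((d : ℝ) / 360) with hh
  have h1 : 1 < h := Real.one_lt_rpow (by norm_num) (by positivity)
  have hb : h ^ 360 = 3 ^ d := by
    rw [hh, ← Real.rpow_natCast, ← Real.rpow_mul (by norm_num), ← Real.rpow_natCast]
    congr 1
    push_cast
    ring
  have hρ : ∀ i : ℕ, ((3 : ℝ) ^ i) ^ (-(11 * d / 12 : ℝ)) = ((h ^ i) ^ 330)⁻¹ := fun i => by
    rw [hh, ← pow_mul, ← Real.rpow_natCast, ← Real.rpow_natCast, ← Real.rpow_mul (by norm_num),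
      ← Real.rpow_mul (by norm_num), ← Real.rpow_neg (by norm_num)]
    congr 1
    push_cast
    ring
  have hT := tendsto_pow_atTop_atTop_of_one_lt h1
  have hl : Tendsto (fun n : ℕ => 1 - Real.exp (-h ^ n) - (h ^ n) ^ 360 * Real.exp (-h ^ n)) atTop
      (𝓝 1) := by
    simpa using (tendsto_const_nhds.sub (Real.tendsto_exp_neg_atTop_nhds_zero.comp hT)).sub
      ((Real.tendsto_pow_mul_exp_neg_atTop_nhds_zero 360).comp hT)
  refine tendsto_of_tendsto_of_tendsto_of_le_of_le' hl tendsto_const_nhds ?_ ?_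
  · filter_upwards [eventually_ge_atTop 1, hT.eventually_ge_atTop 100,
      hT.eventually_ge_atTop (2 * 3 ^ d), (tendsto_pow_const_div_const_pow_of_one_lt 1 h1).eventually
        (ge_mem_nhds one_pos)] with n a1 a2 a3 a4
    rw [pow_one, div_le_one (by positivity)] at a4
    exact core (ρ := fun r => r ^ (-(11 * d / 12 : ℝ))) hd a1 h1 hb (Real.zero_rpow (by linarith))
      hρ (hζ n a1) a4 a2 a3
  · refine Eventually.of_forall fun n => ?_
    have hp : ∀ e, 0 ≤ (edgeP (fun r => r ^ (-(11 * d / 12 : ℝ))) (ζ n) 0 :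
        Sym2 (Box d 3 n) → ℝ) e ∧ (edgeP (fun r => r ^ (-(11 * d / 12 : ℝ))) (ζ n) 0 :
        Sym2 (Box d 3 n) → ℝ) e ≤ 1 := fun e => by
      induction e using Sym2.ind with
      | _ x y => exact ⟨sub_nonneg.2 (Real.exp_le_one_iff.2 (neg_nonpos.2 (le_max_right _ _))),
          sub_le_self _ (Real.exp_pos _).le⟩
    rw [prob_eq fun x => by
      simp [edgeP, kap, hnorm, Real.zero_rpow (show -(11 * d / 12 : ℝ) ≠ 0 by linarith)]]
    exact (Ex_mono hp fun ω => ind_le_one _).trans (Ex_const _ 1).le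

end Pool.Agent.Results.MP_c53cb9_pr.Triangles
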